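import Mathlib
import Pool.Agent.H24.LSCount

/-!
# Counting `k`-subspaces with a given intersection with `U`, and Moebius inversion inside a subspace
-/

set_option autoImplicit false
set_option linter.unusedSectionVars false
set_option linter.unusedVariables false

open Module
open scoped Classical
open Pool.Agent.H24.LS

namespace Pool.Agent.H24.OF

variable {F : Type} [Field F] [Finite F] {V : Type} [AddCommGroup V] [Module F V] [Finite V]

/-- The number of `k`-subspaces `K` with `K ⊓ U = A`. -/
theorem count_inf (U A : Submodule F V) (hA : A ≤ U) (k j u v : ℕ) (hAj : finrank F A = j) (hU : finrank F U = u)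
    (hV : finrank F V = v) (hjk : j ≤ k) :
    (∑ K : Submodule F V, if (finrank F K = k ∧ K ⊓ U = A) then (1 : ℤ) else 0)
      = (Nat.card F : ℤ) ^ ((u - j) * (k - j)) * g F (v - u) (k - j) := by
  have hju : j ≤ u := by rw [← hAj, ← hU]; exact Submodule.finrank_mono hA
  have huv : u ≤ v := by rw [← hU, ← hV]; exact Submodule.finrank_le U
  set B : Submodule F (V ⧸ A) := U.map A.mkQ with hB
  -- dimension formula for comap
  have hdim : ∀ L : Submodule F (V ⧸ A), finrank F (L.comap A.mkQ) = finrank F L + j := by
    intro L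
    have h := LinearMap.finrank_range_add_finrank_ker (A.mkQ.domRestrict (L.comap A.mkQ))
    rw [LinearMap.range_domRestrict, LinearMap.ker_domRestrict, Submodule.ker_mkQ,
      Submodule.map_comap_eq_of_surjective A.mkQ_surjective] at h
    have e2 := (Submodule.equivMapOfInjective (L.comap A.mkQ).subtype (L.comap A.mkQ).subtype_injective
      (A.comap (L.comap A.mkQ).subtype)).finrank_eq
    rw [Submodule.map_comap_subtype] at e2
    have h3 : L.comap A.mkQ ⊓ A = A := by
      apply inf_eq_right.2
      intro x hx
      rw [Submodule.mem_comap]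
      have : A.mkQ x = 0 := by simpa using hx
      rw [this]
      exact L.zero_mem
    rw [h3] at e2
    omega
  have hcU : B.comap A.mkQ = U := by
    rw [hB, Submodule.comap_map_eq, Submodule.ker_mkQ, sup_eq_left.2 hA]
  have hBdim : finrank F B = u - j := by
    have := hdim B
    rw [hcU, hU] at this
    omega
  have hQ : finrank F (V ⧸ A) = v - j := by
    rw [finrank_quot hV A hAj]
  have hQB : finrank F ((V ⧸ A) ⧸ B) = v - u := by
    rw [finrank_quot hQ B hBdim]
    omega
  have c := cut_count B 0 (k - j) (Nat.zero_le _)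
  rw [Nat.zero_mul, pow_zero, mul_one, Nat.sub_zero, cnt_zero, one_mul, cnt_eq_g hQB] at c
  have hcard : (Nat.card B : ℤ) = (Nat.card F : ℤ) ^ (u - j) := by
    have := Module.natCard_eq_pow_finrank (K := F) (V := B)
    rw [this, hBdim]
    push_cast
    rfl
  rw [hcard, ← pow_mul] at c
  rw [← c, Finset.sum_boole, Finset.sum_boole]
  congr 1
  symm
  apply Finset.card_bij (fun L _ => L.comap A.mkQ)
  · intro L hL
    rw [Finset.mem_filter] at hL ⊢
    obtain ⟨_, hL1, hL2⟩ := hL
    refine ⟨Finset.mem_univ _, ?_, ?_⟩
    · rw [hdim, hL1]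
      omega
    · have h0 : L ⊓ B = ⊥ := Submodule.finrank_eq_zero.1 hL2
      have h1 : (L ⊓ B).comap A.mkQ = L.comap A.mkQ ⊓ U := by
        rw [Submodule.comap_inf, hcU]
      rw [← h1, h0, Submodule.comap_bot, Submodule.ker_mkQ]
  · intro L1 _ L2 _ hLL
    exact Submodule.comap_injective_of_surjective A.mkQ_surjective hLL
  · intro K hK
    rw [Finset.mem_filter] at hK
    obtain ⟨_, hK1, hK2⟩ := hK
    have hAK : A ≤ K := by rw [← hK2]; exact inf_le_left
    have hback : (K.map A.mkQ).comap A.mkQ = K := by
      rw [Submodule.comap_map_eq, Submodule.ker_mkQ, sup_eq_left.2 hAK]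
    refine ⟨K.map A.mkQ, ?_, hback⟩
    rw [Finset.mem_filter]
    have hd := hdim (K.map A.mkQ)
    rw [hback] at hd
    refine ⟨Finset.mem_univ _, by omega, ?_⟩
    have h1 : (K.map A.mkQ ⊓ B).comap A.mkQ = A := by
      rw [Submodule.comap_inf, hcU, hback, hK2]
    have h2 := hdim (K.map A.mkQ ⊓ B)
    rw [h1] at h2
    omega

/-- Moebius inversion: the sum of a null function over the blocks with a given intersection with `S`. -/
theorem inf_sum (s : ℕ) (f : Submodule F V → ℤ) (hf : Null (s + 1) f) (S : Submodule F V) (hS : finrank F S ≤ s) :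
    ∀ (c : ℕ) (A : Submodule F V), A ≤ S → finrank F S ≤ finrank F A + c →
      ∑ K : Submodule F V, (if K ⊓ S = A then f K else 0) = 0 := by
  intro c
  induction c using Nat.strong_induction_on with
  | _ c ih =>
    intro A hAS hc
    have hAr : finrank F A ≤ finrank F S := Submodule.finrank_mono hAS
    have h0 := hf A (by omega)
    have e1 : ∀ K : Submodule F V, (if A ≤ K then f K else 0)
        = ∑ A' : Submodule F V, (if A ≤ A' ∧ K ⊓ S = A' then f K else 0) := by
      intro K
      by_cases hK : A ≤ K
      · rw [if_pos hK, Finset.sum_eq_single (K ⊓ S)]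
        · rw [if_pos ⟨le_inf hK hAS, rfl⟩]
        · intro A' _ hne
          rw [if_neg]
          rintro ⟨_, h⟩
          exact hne h.symm
        · intro h
          exact absurd (Finset.mem_univ _) h
      · rw [if_neg hK]
        symm
        apply Finset.sum_eq_zero
        intro A' _
        rw [if_neg]
        rintro ⟨h1, h2⟩
        exact hK (h1.trans (h2 ▸ inf_le_left))
    rw [Finset.sum_congr rfl (fun K _ => e1 K), Finset.sum_comm, Finset.sum_eq_single A] at h0
    · refine Eq.trans ?_ h0
      apply Finset.sum_congr rfl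
      intro K _
      by_cases h : K ⊓ S = A
      · rw [if_pos h, if_pos ⟨le_rfl, h⟩]
      · rw [if_neg h, if_neg (fun h' => h h'.2)]
    · intro A' _ hne
      by_cases h1 : A ≤ A'
      · by_cases h2 : A' ≤ S
        · have hlt : finrank F A < finrank F A' :=
            Submodule.finrank_lt_finrank_of_lt (lt_of_le_of_ne h1 (Ne.symm hne))
          have hAr' : finrank F A' ≤ finrank F S := Submodule.finrank_mono h2
          have := ih (finrank F S - finrank F A') (by omega) A' h2 (by omega)
          refine Eq.trans ?_ this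
          apply Finset.sum_congr rfl
          intro K _
          by_cases h : K ⊓ S = A'
          · rw [if_pos h, if_pos ⟨h1, h⟩]
          · rw [if_neg h, if_neg (fun h' => h h'.2)]
        · apply Finset.sum_eq_zero
          intro K _
          rw [if_neg]
          rintro ⟨_, h⟩
          exact h2 (h ▸ inf_le_right)
      · apply Finset.sum_eq_zero
        intro K _
        rw [if_neg]
        rintro ⟨h, _⟩
        exact h1 h
    · intro h
      exact absurd (Finset.mem_univ _) h

/-- the Pascal recursion in the useful form -/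
theorem g_pas (n κ : ℕ) (hκ : κ ≤ n) :
    g F (n + 1) (κ + 1) = g F n (κ + 1) + (Nat.card F : ℤ) ^ (n - κ) * g F n κ := by
  have hq0 : (Nat.card F : ℤ) ≠ 0 := by exact_mod_cast Nat.card_pos.ne'
  obtain ⟨X, h1, h2⟩ := g_succ (F := F) n κ
  rw [h1]
  congr 1
  apply mul_right_cancel₀ (pow_ne_zero κ hq0)
  rw [h2]
  have : (Nat.card F : ℤ) ^ n = (Nat.card F : ℤ) ^ (n - κ) * (Nat.card F : ℤ) ^ κ := by
    rw [← pow_add]; congr 1; omega
  rw [this]; ring

theorem g_nonneg (n k : ℕ) : 0 ≤ g F n k := by
  unfold g cnt
  apply Finset.sum_nonneg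
  intro W _
  by_cases h : finrank F W = k <;> simp [h]

theorem g_pos (n : ℕ) : ∀ k : ℕ, k ≤ n → 0 < g F n k := by
  have hq0 : (0 : ℤ) < (Nat.card F : ℤ) := by exact_mod_cast Nat.card_pos
  induction n with
  | zero =>
    intro k hk
    have : k = 0 := by omega
    subst this
    rw [g_zero]; exact one_pos
  | succ n ih =>
    intro k hk
    rcases k with _ | k
    · rw [g_zero]; exact one_pos
    · rw [g_pas n k (by omega)]
      have h1 := ih k (by omega)
      have h2 := g_nonneg (F := F) n (k + 1)
      have h3 : 0 < (Nat.card F : ℤ) ^ (n - k) * g F n k := mul_pos (pow_pos hq0 _) h1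
      omega

/-- the quotient identity of Gaussian binomials -/
theorem g_ratio (n : ℕ) : ∀ κ : ℕ, κ ≤ n →
    g F n (κ + 1) * ((Nat.card F : ℤ) ^ (κ + 1) - 1) = g F n κ * ((Nat.card F : ℤ) ^ (n - κ) - 1) := by
  have pas := g_pas (F := F)
  induction n with
  | zero =>
    intro κ hκ
    have : κ = 0 := by omega
    subst this
    rw [g_gt (by omega), g_zero]
    simp
  | succ n ih =>
    intro κ hκ
    rcases Nat.lt_or_ge κ (n + 1) with hlt | hge
    · have h1 := pas n κ (by omega)
      have i1 := ih κ (by omega)
      rcases κ with _ | κ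
      · rw [g_zero] at i1 h1 ⊢
        rw [h1]
        simp only [Nat.sub_zero] at i1 ⊢
        rw [pow_succ (Nat.card F : ℤ) n]
        linear_combination i1
      · have h2 := pas n κ (by omega)
        have i2 := ih κ (by omega)
        have e1 : n + 1 - (κ + 1) = n - κ := by omega
        rw [e1, h1]
        rw [h2]
        obtain ⟨d, hd⟩ : ∃ d, n - κ = d + 1 := ⟨n - κ - 1, by omega⟩
        have e2 : n - (κ + 1) = d := by omega
        rw [e2] at i1 ⊢
        rw [hd] at i2 ⊢
        linear_combination i1 + (Nat.card F : ℤ) ^ (d + 1) * i2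
    · have : κ = n + 1 := by omega
      subst this
      rw [g_gt (by omega)]
      simp

/-- the second Pascal recursion -/
theorem g_pas2 (n κ : ℕ) (hκ : κ ≤ n) :
    g F (n + 1) (κ + 1) = (Nat.card F : ℤ) ^ (κ + 1) * g F n (κ + 1) + g F n κ := by
  have h1 := g_pas (F := F) n κ hκ
  have h2 := g_ratio (F := F) n κ hκ
  rw [h1]
  linear_combination h2 * (-1)

end Pool.Agent.H24.OF
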