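import Mathlib

/-!
# The numeric inequality
-/

set_option autoImplicit false

namespace Pool.Agent.H24.OF

theorem num_nat (t a b q : ℕ) (ht : 1 ≤ t) (hq : 3 ≤ q) :
    8 * ((6 * t + 1 + a) * (12 * t + 2 + a + b) + 1) ≤ q ^ (4 * t ^ 2 + 5 * t + a * (3 * t + 1) + b * (4 * t + 1) + a * b) := by
  obtain ⟨s, hs⟩ : ∃ s, s = t + a + b := ⟨_, rfl⟩
  have hs1 : 1 ≤ s := by omega
  have h1 : (6 * t + 1 + a) * (12 * t + 2 + a + b) ≤ (7 * s) * (14 * s) := Nat.mul_le_mul (by omega) (by omega)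
  have h2 : s < 2 ^ s := Nat.lt_two_pow_self
  have h3 : s * s ≤ 4 ^ s := by
    have : (4 : ℕ) ^ s = 2 ^ s * 2 ^ s := by rw [← mul_pow]; norm_num
    rw [this]
    exact Nat.mul_le_mul h2.le h2.le
  have h4 : 4 * 4 ^ s ≤ 81 ^ s := by
    obtain ⟨r, rfl⟩ : ∃ r, s = r + 1 := ⟨s - 1, by omega⟩
    have : (4 : ℕ) ^ r ≤ 81 ^ r := Nat.pow_le_pow_left (by norm_num) r
    rw [pow_succ, pow_succ]
    omega
  have h5 : 8 * ((6 * t + 1 + a) * (12 * t + 2 + a + b) + 1) ≤ 3 ^ (4 * s + 5) := by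
    have e : (3 : ℕ) ^ (4 * s + 5) = 243 * 81 ^ s := by
      rw [pow_add, pow_mul]; norm_num; ring
    have h6 : (7 * s) * (14 * s) = 98 * (s * s) := by ring
    have h7 : 1 ≤ s * s := Nat.mul_le_mul hs1 hs1
    rw [e]
    omega
  have h8 : 4 * s + 5 ≤ 4 * t ^ 2 + 5 * t + a * (3 * t + 1) + b * (4 * t + 1) + a * b := by
    have i1 : a * 4 ≤ a * (3 * t + 1) := Nat.mul_le_mul_left a (by omega)
    have i2 : b * 5 ≤ b * (4 * t + 1) := Nat.mul_le_mul_left b (by omega)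
    have i3 : t ≤ t ^ 2 := by nlinarith
    have i4 : 0 ≤ a * b := Nat.zero_le _
    omega
  calc 8 * ((6 * t + 1 + a) * (12 * t + 2 + a + b) + 1) ≤ 3 ^ (4 * s + 5) := h5
    _ ≤ q ^ (4 * s + 5) := Nat.pow_le_pow_left hq _
    _ ≤ _ := Nat.pow_le_pow_right (by omega) h8

theorem num_ineq (t k y q : ℕ) (ht : 1 ≤ t) (hq : 3 ≤ q) (hk : 6 * t < k) (hy : 6 * t < y) (N B : ℕ)
    (hN : N ≤ q ^ (t * (k + y))) (hB : B ≤ q ^ (k * (k + y))) :
    (2 * (q : ℝ) ^ (t * (t + 1))) ^ 2 * (2 * (q : ℝ) ^ (k * t)) ^ 2 * (q : ℝ) ^ (t * y) *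
      ((N : ℝ) * Real.log ((B : ℝ) + 1) / 2) < (q : ℝ) ^ (k * y) := by
  obtain ⟨a, rfl⟩ : ∃ a, k = 6 * t + 1 + a := ⟨k - (6 * t + 1), by omega⟩
  obtain ⟨b, rfl⟩ : ∃ b, y = 6 * t + 1 + b := ⟨y - (6 * t + 1), by omega⟩
  set k := 6 * t + 1 + a with hkdef
  set y := 6 * t + 1 + b with hydef
  have hq3 : (3 : ℝ) ≤ q := by exact_mod_cast hq
  have hq0 : (0 : ℝ) < q := by linarith
  have hq1 : (1 : ℝ) ≤ q := by linarith
  have hNr : (N : ℝ) ≤ (q : ℝ) ^ (t * (k + y)) := by exact_mod_cast hN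
  have hBr : (B : ℝ) ≤ (q : ℝ) ^ (k * (k + y)) := by exact_mod_cast hB
  have hlogq : Real.log q < q := by
    have := Real.log_le_sub_one_of_pos hq0
    linarith
  have hlogq0 : 0 ≤ Real.log q := Real.log_nonneg hq1
  have hlog : Real.log ((B : ℝ) + 1) ≤ (k * (k + y) + 1 : ℕ) * Real.log q := by
    rw [← Real.log_pow]
    apply Real.log_le_log
    · positivity
    · rw [pow_succ]
      have h1 : (1 : ℝ) ≤ (q : ℝ) ^ (k * (k + y)) := one_le_pow₀ hq1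
      nlinarith
  have hlog0 : 0 ≤ Real.log ((B : ℝ) + 1) := by
    apply Real.log_nonneg
    have : (0 : ℝ) ≤ B := Nat.cast_nonneg B
    linarith
  have hnat := num_nat t a b q ht hq
  have hfac : k * (k + y) = (6 * t + 1 + a) * (12 * t + 2 + a + b) := by
    rw [hkdef, hydef]; congr 1; ring
  have hnatr : 8 * ((k * (k + y) + 1 : ℕ) : ℝ) ≤ (q : ℝ) ^ (4 * t ^ 2 + 5 * t + a * (3 * t + 1) + b * (4 * t + 1) + a * b) := by
    rw [hfac]
    exact_mod_cast hnat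
  obtain ⟨E, hE⟩ : ∃ E, E = 2 * (t * (t + 1)) + 2 * (k * t) + t * y + t * (k + y) := ⟨_, rfl⟩
  obtain ⟨D, hD⟩ : ∃ D, D = 4 * t ^ 2 + 5 * t + a * (3 * t + 1) + b * (4 * t + 1) + a * b := ⟨_, rfl⟩
  rw [← hD] at hnatr
  have hexp : k * y = E + D + 1 := by
    rw [hE, hD, hkdef, hydef]
    ring
  have hpos : 0 < (q : ℝ) ^ E := pow_pos hq0 E
  have hKpos : (0 : ℝ) < ((k * (k + y) + 1 : ℕ) : ℝ) := by
    exact_mod_cast Nat.succ_pos _
  calc (2 * (q : ℝ) ^ (t * (t + 1))) ^ 2 * (2 * (q : ℝ) ^ (k * t)) ^ 2 * (q : ℝ) ^ (t * y) *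
      ((N : ℝ) * Real.log ((B : ℝ) + 1) / 2)
      = 8 * ((q : ℝ) ^ (2 * (t * (t + 1)) + 2 * (k * t) + t * y) * ((N : ℝ) * Real.log ((B : ℝ) + 1))) := by
        rw [pow_add, pow_add, mul_comm 2 (t * (t + 1)), mul_comm 2 (k * t), pow_mul, pow_mul]
        ring
    _ ≤ 8 * ((q : ℝ) ^ (2 * (t * (t + 1)) + 2 * (k * t) + t * y) * ((q : ℝ) ^ (t * (k + y)) *
          ((k * (k + y) + 1 : ℕ) * Real.log q))) := by
        gcongr
    _ = (q : ℝ) ^ E * (8 * ((k * (k + y) + 1 : ℕ) : ℝ)) * Real.log q := by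
        rw [hE, pow_add _ (2 * (t * (t + 1)) + 2 * (k * t) + t * y) (t * (k + y))]
        ring
    _ < (q : ℝ) ^ E * (8 * ((k * (k + y) + 1 : ℕ) : ℝ)) * q := by
        apply mul_lt_mul_of_pos_left hlogq
        positivity
    _ ≤ (q : ℝ) ^ E * (q : ℝ) ^ D * q := by
        gcongr
    _ = (q : ℝ) ^ (k * y) := by
        rw [hexp, pow_succ, pow_add]

end Pool.Agent.H24.OF
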