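import Mathlib
import Pool.Agent.H24.OF.Cnt
import Pool.Agent.H64.HV.Loc
import Pool.Agent.H64.HV.Grp

/-!
# An odd valued null function

For `q` odd, `v mod 2^m = s < k mod 2^m` and a subspace `U` of dimension `s + 1` there is an integer valued function, null of
strength `s + 1` (subspaces of dimension `≤ s`), which depends on the dimension of `W ⊓ U` only and is odd on all `k`-subspaces.
-/

set_option autoImplicit false
set_option linter.unusedSectionVars false
set_option linter.unusedVariables false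

open Module
open scoped Classical
open Pool.Agent.H24.LS Pool.Agent.H64.HV

namespace Pool.Agent.H24.OF

variable {F : Type} [Field F] [Finite F] {V : Type} [AddCommGroup V] [Module F V] [Finite V]

/-- `q ^ n - 1` and `q ^ n' - 1` have the same power of two if `n` and `n'` have. -/
theorem two_dvd_iff (q n n' : ℕ) (hq : Odd q) (hq1 : 1 < q) (hn : n ≠ 0) (hn' : n' ≠ 0)
    (h : ∀ i, 2 ^ i ∣ n ↔ 2 ^ i ∣ n') (x y : ℤ)
    (hxy : x * (q : ℤ) ^ n * ((q : ℤ) ^ n' - 1) = - (y * ((q : ℤ) ^ n - 1))) :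
    ∀ i : ℕ, (2 : ℤ) ^ i ∣ x ↔ (2 : ℤ) ^ i ∣ y := by
  obtain ⟨e, a, ha, rfl⟩ := Nat.exists_eq_two_pow_mul_odd hn
  obtain ⟨e', a', ha', rfl⟩ := Nat.exists_eq_two_pow_mul_odd hn'
  have hee : e = e' := by
    apply le_antisymm
    · have h1 := (h e).1 (Dvd.intro _ rfl)
      by_contra hlt
      have h2 : 2 ^ (e' + 1) ∣ 2 ^ e' * a' := (pow_dvd_pow 2 (by omega)).trans h1
      rw [pow_succ] at h2
      have h3 := Nat.dvd_of_mul_dvd_mul_left (pow_pos (by norm_num) e') h2
      exact (Nat.not_even_iff_odd.2 ha') (even_iff_two_dvd.2 h3)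
    · have h1 := (h e').2 (Dvd.intro _ rfl)
      by_contra hlt
      have h2 : 2 ^ (e + 1) ∣ 2 ^ e * a := (pow_dvd_pow 2 (by omega)).trans h1
      rw [pow_succ] at h2
      have h3 := Nat.dvd_of_mul_dvd_mul_left (pow_pos (by norm_num) e) h2
      exact (Nat.not_even_iff_odd.2 ha) (even_iff_two_dvd.2 h3)
  subst hee
  set Q : ℤ := (q : ℤ) ^ (2 ^ e) with hQ
  have hqo : Odd (q : ℤ) := by exact_mod_cast hq
  have hQo : Odd Q := hqo.pow
  have hQ1 : Q - 1 ≠ 0 := by
    have h1 : 1 < q ^ (2 ^ e) := Nat.one_lt_pow (pow_pos (by norm_num) e).ne' hq1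
    have h2 : (1 : ℤ) < Q := by rw [hQ]; exact_mod_cast h1
    omega
  have hgeo : ∀ b : ℕ, Odd b → ∃ A : ℤ, Odd A ∧ (q : ℤ) ^ (2 ^ e * b) - 1 = (Q - 1) * A := by
    intro b hb
    refine ⟨∑ i ∈ Finset.range b, Q ^ i, ?_, ?_⟩
    · have h1 := odd_geom (q ^ (2 ^ e)) b hb
      have h2 : ((∑ i ∈ Finset.range b, (q ^ (2 ^ e)) ^ i : ℕ) : ℤ) = ∑ i ∈ Finset.range b, Q ^ i := by
        rw [hQ]; push_cast; rfl
      rw [← h2]
      exact_mod_cast h1
    · rw [pow_mul, ← hQ]
      exact (mul_geom_sum Q b).symm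
  obtain ⟨A, hA, hA2⟩ := hgeo a ha
  obtain ⟨A', hA', hA'2⟩ := hgeo a' ha'
  rw [hA2, hA'2] at hxy
  have hmain : x * ((q : ℤ) ^ (2 ^ e * a) * A') = y * (-A) := by
    apply mul_right_cancel₀ hQ1
    linear_combination hxy
  have hc : ∀ (i : ℕ) (z B : ℤ), Odd B → ((2 : ℤ) ^ i ∣ z * B ↔ (2 : ℤ) ^ i ∣ z) := by
    intro i z B hB
    have hco : IsCoprime ((2 : ℤ) ^ i) B := by
      apply IsCoprime.pow_left
      obtain ⟨w, hw⟩ := hB
      exact ⟨-w, 1, by rw [hw]; ring⟩
    exact ⟨fun h => hco.dvd_of_dvd_mul_right h, fun h => h.mul_right B⟩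
  intro i
  rw [← hc i x _ ((hqo.pow).mul hA'), hmain, hc i y _ hA.neg]

/-- a hyperplane of `U` which contains `A` -/
theorem exists_hyp (A U : Submodule F V) (hAU : A ≤ U) (s : ℕ) (hU : finrank F U = s + 1) (hA : finrank F A ≤ s) :
    ∃ S : Submodule F V, A ≤ S ∧ S ≤ U ∧ finrank F S = s := by
  have hlt : A.comap U.subtype < ⊤ := by
    rw [lt_top_iff_ne_top]
    intro h
    have h1 : U ≤ A := by
      intro x hx
      have : (⟨x, hx⟩ : U) ∈ A.comap U.subtype := by rw [h]; trivial
      exact this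
    have := Submodule.finrank_mono h1
    omega
  obtain ⟨f, hf0, hf⟩ := Submodule.exists_le_ker_of_lt_top _ hlt
  refine ⟨(LinearMap.ker f).map U.subtype, ?_, ?_, ?_⟩
  · intro x hx
    exact ⟨⟨x, hAU hx⟩, hf hx, rfl⟩
  · rintro x ⟨y, _, rfl⟩
    exact y.2
  · have e1 := (Submodule.equivMapOfInjective U.subtype U.subtype_injective (LinearMap.ker f)).finrank_eq
    rw [← e1]
    have h2 := LinearMap.finrank_range_add_finrank_ker f
    have h3 : LinearMap.range f = ⊤ := LinearMap.range_eq_top.2 (LinearMap.surjective_of_ne_zero hf0)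
    rw [h3, finrank_top, finrank_self, hU] at h2
    omega

/-- The recursion of the values. -/
theorem step (k s : ℕ) (U : Submodule F V) (hU : finrank F U = s + 1) (hkv : k + s + 1 ≤ finrank F V)
    (f : Submodule F V → ℤ) (hf : Null (s + 1) f) (hinv : InvF U f) (hk : ∀ W, f W ≠ 0 → finrank F W = k)
    (W W' : Submodule F V) (hW : finrank F W = k) (hW' : finrank F W' = k) (j : ℕ) (hj : j ≤ s)
    (hWj : finrank F (W ⊓ U : Submodule F V) = j) (hWj' : finrank F (W' ⊓ U : Submodule F V) = j + 1) :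
    f W * (Nat.card F : ℤ) ^ (k - j) * ((Nat.card F : ℤ) ^ (finrank F V - k - s + j) - 1)
      = - (f W' * ((Nat.card F : ℤ) ^ (k - j) - 1)) := by
  obtain ⟨v, hv⟩ : ∃ v, finrank F V = v := ⟨_, rfl⟩
  rw [hv] at hkv ⊢
  have hjk : j + 1 ≤ k := by
    rw [← hWj', ← hW']
    exact Submodule.finrank_mono inf_le_left
  obtain ⟨S, hAS, hSU, hS⟩ := exists_hyp (W ⊓ U) U inf_le_right s hU (by omega)
  set A : Submodule F V := W ⊓ U with hA
  have hsum := inf_sum s f hf S hS.le s A hAS (by omega)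
  have hAU : A ≤ U := inf_le_right
  have cU := count_inf U A hAU k j (s + 1) v hWj hU hv (by omega)
  have cS := count_inf S A hAS k j s v hWj hS hv (by omega)
  have e1 : ∀ K : Submodule F V, (if K ⊓ S = A then f K else 0)
      = f W * (if (finrank F K = k ∧ K ⊓ U = A) then (1 : ℤ) else 0)
        + f W' * ((if (finrank F K = k ∧ K ⊓ S = A) then (1 : ℤ) else 0)
          - (if (finrank F K = k ∧ K ⊓ U = A) then (1 : ℤ) else 0)) := by
    intro K
    by_cases hK : finrank F K = k
    · by_cases hKS : K ⊓ S = A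
      · by_cases hKU : K ⊓ U = A
        · have : f K = f W := hinv K W (by rw [hK, hW]) (by rw [hKU])
          simp [hK, hKS, hKU, this]
        · have hst := step_le S U K hSU (by omega)
          have h1 : A ≤ K ⊓ U := by
            rw [← hKS]
            exact inf_le_inf_left K hSU
          have h2 : finrank F A < finrank F (K ⊓ U : Submodule F V) :=
            Submodule.finrank_lt_finrank_of_lt (lt_of_le_of_ne h1 (Ne.symm hKU))
          rw [hKS] at hst
          have : f K = f W' := hinv K W' (by rw [hK, hW']) (by omega)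
          simp [hK, hKS, hKU, this]
      · have hKU : K ⊓ U ≠ A := by
          intro h
          apply hKS
          have : K ⊓ S = (K ⊓ U) ⊓ S := by
            rw [inf_assoc, inf_eq_right.2 hSU]
          rw [this, h]
          exact inf_eq_left.2 hAS
        simp [hKS, hKU]
    · have : f K = 0 := by
        by_contra h
        exact hK (hk K h)
      simp [hK, this]
  rw [Finset.sum_congr rfl (fun K _ => e1 K), Finset.sum_add_distrib, ← Finset.mul_sum, ← Finset.mul_sum,
    Finset.sum_sub_distrib, cU, cS] at hsum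
  obtain ⟨κ, hκ⟩ : ∃ κ, k - j = κ + 1 := ⟨k - j - 1, by omega⟩
  obtain ⟨N, hN⟩ : ∃ N, v - (s + 1) = N := ⟨_, rfl⟩
  have hN' : v - s = N + 1 := by omega
  have hsj : s + 1 - j = (s - j) + 1 := by omega
  have hκN : κ ≤ N := by omega
  have hexp : v - k - s + j = N - κ := by omega
  rw [hκ, hN, hN', hsj, g_pas2 N κ hκN] at hsum
  rw [hκ, hexp]
  have hr := g_ratio (F := F) N κ hκN
  have hq0 : (Nat.card F : ℤ) ≠ 0 := by exact_mod_cast Nat.card_pos.ne'
  have hpow : (Nat.card F : ℤ) ^ ((s - j + 1) * (κ + 1))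
      = (Nat.card F : ℤ) ^ ((s - j) * (κ + 1)) * (Nat.card F : ℤ) ^ (κ + 1) := by
    rw [← pow_add]; congr 1; ring
  rw [hpow] at hsum
  have h1 : f W * (Nat.card F : ℤ) ^ (κ + 1) * g F N (κ + 1) + f W' * g F N κ = 0 := by
    apply mul_left_cancel₀ (pow_ne_zero ((s - j) * (κ + 1)) hq0)
    linear_combination hsum
  have hg := (g_pos (F := F) N κ hκN).ne'
  apply mul_right_cancel₀ hg
  linear_combination ((Nat.card F : ℤ) ^ (κ + 1) - 1) * h1 - f W * (Nat.card F : ℤ) ^ (κ + 1) * hr

/-- The odd valued null function. -/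
theorem odd_null (k m s v : ℕ) (hV : finrank F V = v) (hq : Odd (Nat.card F)) (hs : v % 2 ^ m = s)
    (hb : s < k % 2 ^ m) (hkv : k ≤ v) :
    ∃ (U : Submodule F V) (f : Submodule F V → ℤ), finrank F U = s + 1 ∧ InvF U f ∧ Null (s + 1) f ∧
      (∀ W : Submodule F V, finrank F W = k → Odd (f W)) ∧
      (∀ W : Submodule F V, finrank F W ≠ k → f W = 0) := by
  have hp : 0 < 2 ^ m := pow_pos (by norm_num) m
  have hbm : k % 2 ^ m < 2 ^ m := Nat.mod_lt _ hp
  have hsk : s + 1 ≤ k := by
    have := Nat.mod_le k (2 ^ m)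
    omega
  have hK := Nat.div_add_mod k (2 ^ m)
  have hVd := Nat.div_add_mod v (2 ^ m)
  have hksv : k + s + 1 ≤ v := by
    have h1 : k / 2 ^ m < v / 2 ^ m := by
      by_contra h
      push Not at h
      have := Nat.mul_le_mul_left (2 ^ m) h
      omega
    have h2 := Nat.mul_le_mul_left (2 ^ m) (Nat.succ_le_of_lt h1)
    rw [Nat.succ_eq_add_one, Nat.mul_add, Nat.mul_one] at h2
    omega
  obtain ⟨A, hA1, hA2⟩ := exists_flag (F := F) v hV
  have hU : finrank F (A (s + 1)) = s + 1 := hA2 (s + 1) (by omega)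
  set U := A (s + 1) with hUdef
  obtain ⟨c, W₀, hc1, hc2, hc3, hc4, hc5, hc6, hc7⟩ := exists_loc s (s + 1) s k U hU (by omega) le_rfl hsk
    (by omega)
  set f := avg U c with hfdef
  have hinv : InvF U f := avg_inv U c
  have hnull : Null (s + 1) f := avg_null U hc1
  have hzero : ∀ W : Submodule F V, finrank F W ≠ k → f W = 0 := by
    intro W hW
    apply avg_zero
    intro W' hW' _
    by_contra h
    exact hW (by rw [← hW', hc2 W' h])
  have hsupp : ∀ W, f W ≠ 0 → finrank F W = k := by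
    intro W hW
    by_contra h
    exact hW (hzero W h)
  have hpos : 0 < f W₀ := by
    apply avg_pos U c W₀ (by omega)
    intro W' hne _ hW'
    by_contra h
    have := hc7 W' h hne
    rw [hc5] at hW'
    omega
  -- powers of two
  have key : ∀ (d : ℕ) (W : Submodule F V), finrank F W = k → finrank F (W ⊓ U : Submodule F V) + d = s + 1 →
      ∀ i : ℕ, (2 : ℤ) ^ i ∣ f W ↔ (2 : ℤ) ^ i ∣ f W₀ := by
    intro d
    induction d with
    | zero =>
      intro W hW hWd i
      have : f W = f W₀ := hinv W W₀ (by rw [hW, hc4]) (by omega)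
      rw [this]
    | succ d ih =>
      intro W hW hWd i
      obtain ⟨j, hj⟩ : ∃ j, finrank F (W ⊓ U : Submodule F V) = j := ⟨_, rfl⟩
      obtain ⟨W', hW'1, hW'2⟩ := exists_sub U s k (j + 1) hU (by omega) (by omega) (by omega)
      rw [← ih W' hW'1 (by omega) i]
      have hst := step k s U hU (by omega) f hnull hinv hsupp W W' hW hW'1 j (by omega) hj hW'2
      have hq1 : 1 < Nat.card F := Finite.one_lt_card
      have hjk : j ≤ k := by
        rw [← hj, ← hW]
        exact Submodule.finrank_mono inf_le_left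
      refine two_dvd_iff (Nat.card F) (k - j) (finrank F V - k - s + j) hq hq1 (by omega) (by omega) ?_ _ _ hst i
      rw [hV]
      have hsum : 2 ^ m ∣ (k - j) + (v - k - s + j) := by
        have : (k - j) + (v - k - s + j) = 2 ^ m * (v / 2 ^ m) := by omega
        rw [this]
        exact Dvd.intro _ rfl
      have hnot : ¬ 2 ^ m ∣ (k - j) := by
        intro h
        have e : k - j = 2 ^ m * (k / 2 ^ m) + (k % 2 ^ m - j) := by omega
        rw [e, ← Nat.dvd_add_iff_right (Dvd.intro _ rfl)] at h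
        have := Nat.le_of_dvd (by omega) h
        omega
      intro i
      rcases Nat.lt_or_ge m i with hi | hi
      · constructor
        · intro h
          exact absurd ((pow_dvd_pow 2 hi.le).trans h) hnot
        · intro h
          exfalso
          apply hnot
          have h1 : 2 ^ m ∣ v - k - s + j := (pow_dvd_pow 2 hi.le).trans h
          exact (Nat.dvd_add_iff_left h1).2 hsum
      · have h1 : 2 ^ i ∣ (k - j) + (v - k - s + j) := (pow_dvd_pow 2 hi).trans hsum
        constructor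
        · intro h
          exact (Nat.dvd_add_iff_right h).2 h1
        · intro h
          exact (Nat.dvd_add_iff_left h).2 h1
  have hle : ∀ W : Submodule F V, finrank F (W ⊓ U : Submodule F V) ≤ s + 1 := by
    intro W
    rw [← hU]
    exact Submodule.finrank_mono inf_le_right
  have key' : ∀ (W : Submodule F V), finrank F W = k → ∀ i : ℕ, (2 : ℤ) ^ i ∣ f W ↔ (2 : ℤ) ^ i ∣ f W₀ := by
    intro W hW
    exact key (s + 1 - finrank F (W ⊓ U : Submodule F V)) W hW (by have := hle W; omega)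
  -- the exact power
  obtain ⟨e, he1, he2⟩ : ∃ e : ℕ, (2 : ℤ) ^ e ∣ f W₀ ∧ ¬ (2 : ℤ) ^ (e + 1) ∣ f W₀ := by
    have hfin : FiniteMultiplicity (2 : ℤ) (f W₀) := by
      apply Int.finiteMultiplicity_iff.2
      exact ⟨by norm_num, hpos.ne'⟩
    obtain ⟨n, hn⟩ := hfin.exists_eq_pow_mul_and_not_dvd
    refine ⟨multiplicity 2 (f W₀), pow_multiplicity_dvd _ _, ?_⟩
    exact hfin.not_pow_dvd_of_multiplicity_lt (Nat.lt_succ_self _)
  have hdiv : ∀ W, (2 : ℤ) ^ e ∣ f W := by
    intro W
    by_cases hW : finrank F W = k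
    · exact (key' W hW e).2 he1
    · rw [hzero W hW]; exact dvd_zero _
  have h2e : (2 : ℤ) ^ e ≠ 0 := pow_ne_zero _ (by norm_num)
  refine ⟨U, fun W => f W / 2 ^ e, hU, ?_, ?_, ?_, ?_⟩
  · intro W W' h1 h2
    show f W / 2 ^ e = f W' / 2 ^ e
    rw [hinv W W' h1 h2]
  · intro T hT
    have h0 := hnull T hT
    apply mul_left_cancel₀ h2e
    rw [mul_zero, Finset.mul_sum]
    refine Eq.trans ?_ h0
    apply Finset.sum_congr rfl
    intro W _
    by_cases h : T ≤ W
    · rw [if_pos h, if_pos h]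
      exact Int.mul_ediv_cancel' (hdiv W)
    · rw [if_neg h, if_neg h, mul_zero]
  · intro W hW
    show Odd (f W / 2 ^ e)
    rw [← Int.not_even_iff_odd, even_iff_two_dvd]
    rintro ⟨w, hw⟩
    apply he2
    rw [← key' W hW]
    refine ⟨w, ?_⟩
    have h3 := Int.mul_ediv_cancel' (hdiv W)
    rw [← h3, hw]
    ring
  · intro W hW
    show f W / 2 ^ e = 0
    rw [hzero W hW, Int.zero_ediv]

end Pool.Agent.H24.OF
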